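import Pool.Agent.Y230.TL.Stm
import Pool.Agent.Y21.TH.JobA

set_option autoImplicit false
set_option linter.unusedSectionVars false

/-! # A microlocal functional equation gives an ordinary one, polynomial coefficients (Saito) -/

namespace Pool.Agent.Y230.TL

open MvPolynomial
open Pool.Agent.W574.SM (weyl)
open Pool.Agent.Y21.TH
open Pool.Agent.Y230.TH (kf W)

variable {τ : Type}

theorem tA : StA := by
  classical
  intro τ g hg B hq
  obtain ⟨v, hv, η, hη, hsum⟩ := Submodule.mem_sup.mp (W_le g hq)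
  obtain ⟨P, hP⟩ := DD_eq g v hv
  obtain ⟨R, T, hR, hT, hRT⟩ := HH_prop g η hη
  obtain ⟨M, r, hr⟩ := seq_sum g P P.support
  have hB : ∀ k : ℕ, g ^ M * (((k : ℂ) + 1) • v k) = r.eval (k : MvPolynomial τ ℂ) * g ^ k := by
    intro k
    rw [hP k]
    exact hr k
  have hq1 : ∀ k : ℕ, ((k : ℂ) + 1) • (B.eval (k : MvPolynomial τ ℂ) * g ^ k) =
      ((k : ℂ) + 1) • v k + ((k : ℂ) + 1) • η k := by
    intro k
    have h := congrFun hsum k
    rw [← smul_add]
    congr 1
    exact h.symm
  have hq2 : ∀ k : ℕ, ((k : ℂ) + 1) • (B.eval (k : MvPolynomial τ ℂ) * g ^ k) =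
      ((Polynomial.X + 1) * B).eval (k : MvPolynomial τ ℂ) * g ^ k := by
    intro k
    have h4 : (k : MvPolynomial τ ℂ) = C (k : ℂ) := by simp
    rw [Polynomial.eval_mul, Polynomial.eval_add, Polynomial.eval_X, Polynomial.eval_one,
      ← C_mul', C_add, C_1, ← h4]
    ring
  set G : Polynomial (MvPolynomial τ ℂ) :=
    Polynomial.C (g ^ M) * ((Polynomial.X + 1) * B) - r with hG
  have hzero : R * G - Polynomial.C (g ^ M) * T = 0 := by
    apply poly_zero
    intro k
    have hgk : g ^ k ≠ 0 := pow_ne_zero k hg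
    apply mul_right_cancel₀ hgk
    have h1 := hq1 k
    rw [hq2 k] at h1
    rw [zero_mul, hG]
    simp only [Polynomial.eval_sub, Polynomial.eval_mul, Polynomial.eval_C] at h1 ⊢
    linear_combination (R.eval (k : MvPolynomial τ ℂ) * g ^ M) * h1 +
      R.eval (k : MvPolynomial τ ℂ) * hB k + g ^ M * hRT k
  have hG0 : G = 0 := by
    by_contra hne
    have h1 : R * G = Polynomial.C (g ^ M) * T := sub_eq_zero.mp hzero
    have h2 : (R * G).degree = (Polynomial.C (g ^ M) * T).degree := by rw [h1]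
    rw [Polynomial.degree_mul, Polynomial.degree_mul] at h2
    have h3 : (Polynomial.C (g ^ M)).degree + T.degree ≤ T.degree := by
      calc (Polynomial.C (g ^ M)).degree + T.degree ≤ 0 + T.degree :=
            add_le_add Polynomial.degree_C_le le_rfl
        _ = T.degree := zero_add _
    have h4 : R.degree ≤ R.degree + G.degree := by
      calc R.degree = R.degree + 0 := (add_zero _).symm
        _ ≤ R.degree + G.degree := add_le_add le_rfl (Polynomial.zero_le_degree_iff.mpr hne)
    exact absurd (lt_of_le_of_lt h3 hT) (not_lt.mpr (h2 ▸ h4))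
  refine ⟨P, fun k => ?_⟩
  have hgM : g ^ M ≠ 0 := pow_ne_zero M hg
  apply mul_left_cancel₀ hgM
  have h5 : g ^ M * (P.sum fun m Q =>
      ((k : ℂ) ^ m) • (Q : Module.End ℂ (MvPolynomial τ ℂ)) (g ^ (k + 1))) =
      r.eval (k : MvPolynomial τ ℂ) * g ^ k := hr k
  have h6 : (Polynomial.C (g ^ M) * ((Polynomial.X + 1) * B) - r).eval
      (k : MvPolynomial τ ℂ) = 0 := by
    rw [← hG, hG0, Polynomial.eval_zero]
  rw [Polynomial.eval_sub, Polynomial.eval_mul, Polynomial.eval_C] at h6
  refine Eq.trans ?_ h5.symm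
  rw [hq2 k]
  linear_combination g ^ k * h6

end Pool.Agent.Y230.TL
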