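import Pool.Agent.Y230.TL.Stm
import Pool.Agent.Y230.TH.Jet

set_option autoImplicit false
set_option linter.unusedSectionVars false
set_option linter.unusedVariables false

/-! # The reduced forced roots of `∑ y_j f_j(x)` at a point -/

namespace Pool.Agent.Y230.TL

open MvPolynomial
open Pool.Agent.W574.SM Pool.Agent.W574.HS Pool.Agent.W574.RO Pool.Agent.Y229
open Pool.Agent.Y230.TH (kf kd W cfc coeff_gen)

theorem h0_C {ι ρ : Type} (a : ℂ) : h0 (C a : MvPolynomial (ι ⊕ ρ) ℂ) = C a := by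
  unfold h0
  rw [aeval_C]
  rfl

theorem eval_h0 {ι ρ : Type} (p : ρ → ℂ) (F : MvPolynomial (ι ⊕ ρ) ℂ) :
    eval p (h0 F) = eval (Sum.elim (fun _ => 0) p) F := by
  induction F using MvPolynomial.induction_on with
  | C a => rw [h0_C, eval_C, eval_C]
  | add F G h1 h2 => rw [map_add, map_add, h1, h2, map_add]
  | mul_X F i h =>
    rw [map_mul, map_mul, h, map_mul, eval_X]
    congr 1
    unfold h0
    rw [aeval_X]
    rcases i with i | i
    · simp
    · simp

theorem map_h0_eval {ι ρ : Type} (B : Polynomial (MvPolynomial (ι ⊕ ρ) ℂ)) (a : ℂ) :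
    (B.map (h0 : MvPolynomial (ι ⊕ ρ) ℂ →ₐ[ℂ] MvPolynomial ρ ℂ).toRingHom).eval (C a) =
      h0 (B.eval (C a)) := by
  have h5 : (C a : MvPolynomial ρ ℂ) =
      (h0 : MvPolynomial (ι ⊕ ρ) ℂ →ₐ[ℂ] MvPolynomial ρ ℂ).toRingHom (C a) := (h0_C a).symm
  rw [Polynomial.eval_map, h5, Polynomial.eval₂_at_apply]
  rfl

theorem tU (hB : StB) : StU := by
  classical
  intro σ ι _ _ _ f p α hα B P hRE
  obtain ⟨κ, _, c, d, q, m, R, hd, hR⟩ := hB f 0 B P (by
    intro k
    have h1 := hRE k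
    rw [map_zero, add_zero]
    exact h1)
  set w : AF σ ι := ∑ i ∈ Finset.univ.filter (fun i => d i = 1),
    gen f (tens (C (cfc (c i)) * ((∑ j, X j) ^ m i * q i)) (R i)) (c i) with hw
  have hwV : w ∈ V f 1 := Submodule.sum_mem _ fun i hi =>
    V_le f _ (hd i (by rw [(Finset.mem_filter.1 hi).2])) (gen_mem f _ _ rfl)
  have key : mulB (B.map (h0 : MvPolynomial (ι ⊕ σ) ℂ →ₐ[ℂ] MvPolynomial σ ℂ).toRingHom)
      (G0 f) = w := by
    funext s
    set s' : ι →₀ ℕ := Finsupp.equivFunOnFinite.symm s with hs'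
    have h1 := hR s' 0
    rw [mulB, map_h0_eval]
    have e0 : (C ((∑ j, s j : ℕ) : ℂ) : MvPolynomial (ι ⊕ σ) ℂ) =
        ((∑ j, s' j + 0 : ℕ) : MvPolynomial (ι ⊕ σ) ℂ) := by
      rw [add_zero, map_natCast]
      rfl
    rw [e0]
    rw [pow_zero, mul_one] at h1
    change h0 _ * (∏ j, f j ^ s j) = _
    have e1 : (∏ j, f j ^ s j) = ∏ j, f j ^ s' j := rfl
    rw [e1, h1, hw, Finset.sum_apply, Finset.sum_filter]
    refine Finset.sum_congr rfl fun i _ => ?_
    split_ifs with hi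
    · have e2 : kd 0 (d i) = 1 := by
        unfold kd
        rw [hi, if_neg (by norm_num)]
        simp
      have e3 : ((0 : ℕ) : ℤ) + 1 - d i = 0 := by rw [hi]; norm_num
      rw [e2, mul_one, e3, Int.toNat_zero, pow_zero, mul_one]
      ext mon
      rw [coeff_smul, coeff_gen]
      have e4 : evN (Finsupp.equivFunOnFinite.symm s) ((∑ j, X j) ^ m i * q i) =
          ((∑ j, s' j + 0 : ℕ) : ℂ) ^ m i * evN s' (q i) := by
        unfold evN
        rw [map_mul, map_pow, map_sum]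
        simp only [eval_X]
        push_cast
        rw [add_zero]
      rw [e4, smul_eq_mul]
      ring
    · by_cases h2 : 1 < d i
      · have e2 : kd 0 (d i) = 0 := by
          unfold kd
          rw [if_pos (by push_cast; omega)]
        rw [e2, mul_zero, zero_smul]
      · have e3 : (((0 : ℕ) : ℤ) + 1 - d i).toNat ≠ 0 := by omega
        rw [zero_pow e3, mul_zero, map_zero, smul_zero]
  have h2 := hα _ (key ▸ hwV)
  rw [map_h0_eval, eval_h0] at h2
  exact h2

end Pool.Agent.Y230.TL
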