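import Pool.Agent.Y230.TH.TopDefs
import Pool.Agent.Y229.LPAtoms

set_option autoImplicit false

/-! # Local topological zeta functions of the Thom-Sebastiani sums `∑ y_j f_j(x) + g(z)`

Let `V_I(t)` be the function of the germ at the origin of the ideal `I = (f_j)` which is described in
`Pool/Agent/Y229/LPDefs` (the limit for `L → 1`, `e = t / (L - 1)`, of the volumes of the arcs at the
origin with `ord I ≥ e`), and `V_g` the one of the polynomial `g`, `g(0) = 0`. For
`F = ∑ y_j f_j(x) + g(z)` let `U_e`, `W_e` and `W'_e` be the volumes for `I`, `g` and `F`. If `ord I = i`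
at an arc `x`, then `∑ y_j f_j(x)`, `y(0) = 0`, is uniformly distributed in `t ^ (i + 1) ℂ[[t]]`; hence
`L W'_(e + 1) - W'_e = U_e (L W_(e + 1) - W_e)`, and in the limit `V_F' + V_F = V_I (V_g' + V_g)`. The
Laplace transforms of `V_I` and `V_g' + V_g` are `(1 - Z_I(s)) / s` and `(1 - (s + 1) Z_g(s)) / s`. -/

namespace Pool.Agent.Y230.TL

open MvPolynomial Pool.Agent.W574.SM Pool.Agent.W574.CN Pool.Agent.W574.RO Pool.Agent.Y229
open Pool.Agent.W574.MO Pool.Agent.W425.SM Pool.Agent.W425.SV Pool.Agent.W422.GC
open Pool.Agent.W425.ND Pool.Agent.Y230.TH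

/-- `StrongHyp A Z`: `A` is one of the following germs of hypersurfaces at the origin, `Z` is its local
topological zeta function, and `Z` has at most a simple pole at `-1`: the plane curves, with
`LocalZeta`; the polynomials `∑_j a_j x ^ (v j) + h`, where `h` has coefficients in the field `F` and
its exponents lie in the Newton polyhedron of the `v j ≠ 0`, and the `a_j` are algebraically
independent over `F`, with the zeta function `topZetaGLocal v R`, computed on the embedded resolution
which belongs to any smooth fan `R` on which the ideal `(x ^ (v j))_j` becomes principal. -/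
inductive StrongHyp : Fam → RatFunc ℂ → Prop
  /-- plane curves -/
  | curve (g : MvPolynomial (Fin 2) ℂ) (hg : g ≠ 0) (Z : RatFunc ℂ)
      (hZ : LocalZeta (fun _ : Fin 1 => g) 0 1 0 1 Z)
      (h1 : ((RatFunc.X + 1) * Z).denom.eval (-1) ≠ 0) : StrongHyp ⟨Fin 2, Fin 1, fun _ => g⟩ Z
  /-- polynomials with very general coefficients at the vertices of the Newton polyhedron -/
  | generic (r N : ℕ) (hr : 1 ≤ r) (F : Subfield ℂ) (v : Fin r → Fin N → ℕ)
      (hv : Function.Injective v) (hv0 : ∀ j, v j ≠ 0) (h : MvPolynomial (Fin N) F)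
      (hh : ∀ w ∈ h.support, NP v w) (a : Fin r → ℂ) (ha : AlgebraicIndependent F a)
      (R : SmoothFan N) (hR : Principal v R)
      (h1 : ((RatFunc.X + 1) * topZetaGLocal v R).denom.eval (-1) ≠ 0) :
      StrongHyp ⟨Fin N, Fin 1, fun _ => sparse v a + MvPolynomial.map (algebraMap F ℂ) h⟩
        (topZetaGLocal v R)

/-- `WeakHyp A Z`: as in `StrongHyp`, with in addition all the polynomials `g = ∑_j a_j x ^ (v j)`,
`g(0) = 0`, which are nondegenerate with respect to their Newton polytope, whose local topological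
zeta function has at most a simple pole at `-1` (and no pole at the natural numbers, which holds for
all topological zeta functions). -/
inductive WeakHyp : Fam → RatFunc ℂ → Prop
  /-- the hypersurfaces in `StrongHyp` -/
  | strong (A : Fam) (Z : RatFunc ℂ) (h : StrongHyp A Z) : WeakHyp A Z
  /-- nondegenerate polynomials -/
  | nondeg (r N : ℕ) (hr : 1 ≤ r) (v : Fin r → Fin N → ℕ) (a : Fin r → ℂ)
      (hv : Function.Injective v) (hv0 : ∀ j, v j ≠ 0) (hnd : Nondeg v a) (R : SmoothFan N)
      (hR : Principal v R)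
      (h1 : ∀ i : ℕ, ((RatFunc.X + 1) * topZetaGLocal v R).denom.eval ((i : ℂ) - 1) ≠ 0) :
      WeakHyp ⟨Fin N, Fin 1, fun _ => sparse v a⟩ (topZetaGLocal v R)

/-- Two classes of germs of ideals at the origin, given by generators, together with their local
topological zeta functions: `TT At HAt false A Z` for ideals and `TT At HAt true A Z` for principal
ideals (hypersurfaces). They are the smallest classes with the following properties. -/
inductive TT (At HAt : Fam → RatFunc ℂ → Prop) : Bool → Fam → RatFunc ℂ → Prop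
  /-- the ideals of the given class -/
  | atom (A : Fam) (Z : RatFunc ℂ) (h : At A Z) : TT At HAt false A Z
  /-- the hypersurfaces of the given class -/
  | hatom (A : Fam) (Z : RatFunc ℂ) (h : HAt A Z) : TT At HAt true A Z
  /-- a hypersurface is a principal ideal -/
  | hyp (A : Fam) (Z : RatFunc ℂ) (h : TT At HAt true A Z) : TT At HAt false A Z
  /-- the sum of two ideals in disjoint sets of variables: if `1 - Z = s ∫ V(t) exp(- s t) dt` and
  `1 - W = s ∫ W'(t) exp(- s t) dt`, where no constant function occurs in the exponential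
  polynomials `V`, `W'` (given by `v` and `w`), then the topological zeta function of the sum is
  `1 - s ∫ V(t) W'(t) exp(- s t) dt` -/
  | sum (A B : Fam) (Z W : RatFunc ℂ) (v w : ℂ × ℕ →₀ ℂ) (hv : 1 - Z = RatFunc.X * lap v)
      (hw : 1 - W = RatFunc.X * lap w) (hv0 : ∀ p ∈ v.support, p.1 ≠ 0)
      (hw0 : ∀ p ∈ w.support, p.1 ≠ 0) (hA : TT At HAt false A Z) (hB : TT At HAt false B W) :
      TT At HAt false (A.sum B) (1 - RatFunc.X * lap2 v w)
  /-- the product of two ideals in disjoint sets of variables -/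
  | mul (A B : Fam) (Z W : RatFunc ℂ) (hA : TT At HAt false A Z) (hB : TT At HAt false B W) :
      TT At HAt false (A.mul B) (Z * W)
  /-- the germ of `∑ y_j f_j(x)` has the topological zeta function `Z / (s + 1)` -/
  | univ (A : Fam) (Z : RatFunc ℂ) (hA : TT At HAt false A Z) :
      TT At HAt true (univFam A) (Z * (RatFunc.X + 1)⁻¹)
  /-- the Thom-Sebastiani sum `∑ y_j f_j(x) + g(z)`, `g(0) = 0`: if
  `1 - Z = s ∫ V(t) exp(- s t) dt` and `1 - (s + 1) W = s ∫ U(t) exp(- s t) dt`, where no constant
  function occurs in the exponential polynomials `V`, `U` (given by `v` and `w`), then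
  `1 - (s + 1) Z_F = s ∫ V(t) U(t) exp(- s t) dt` -/
  | ts (A : Fam) (τ : Type) (g : MvPolynomial τ ℂ) (Z W : RatFunc ℂ) (v w : ℂ × ℕ →₀ ℂ)
      (hv : 1 - Z = RatFunc.X * lap v) (hw : 1 - (RatFunc.X + 1) * W = RatFunc.X * lap w)
      (hv0 : ∀ p ∈ v.support, p.1 ≠ 0) (hw0 : ∀ p ∈ w.support, p.1 ≠ 0)
      (h0 : constantCoeff g = 0)
      (hA : TT At HAt false A Z) (hg : TT At HAt true ⟨τ, Fin 1, fun _ => g⟩ W) :
      TT At HAt true (tsFam A τ g) ((1 - RatFunc.X * lap2 v w) * (RatFunc.X + 1)⁻¹)
  /-- variables which do not occur may be dropped -/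
  | drop (σ κ : Type) (g : MvPolynomial σ ℂ) (Z : RatFunc ℂ)
      (h : TT At HAt true ⟨σ ⊕ κ, Fin 1, fun _ => rename Sum.inl g⟩ Z) :
      TT At HAt true ⟨σ, Fin 1, fun _ => g⟩ Z
  /-- the variables and the generators may be indexed differently -/
  | equiv (c : Bool) (A B : Fam) (i : A.σ ≃ B.σ) (k : A.ι ≃ B.ι)
      (h : ∀ j, B.f (k j) = rename i (A.f j)) (Z : RatFunc ℂ) (hA : TT At HAt c A Z) :
      TT At HAt c B Z

end Pool.Agent.Y230.TL
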