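import Pool.Agent.Y230.TL.Main
import Pool.Agent.Y229.LP3

set_option autoImplicit false
set_option linter.unusedSectionVars false
set_option linter.unusedVariables false

/-! # Local topological zeta functions of Thom-Sebastiani sums: the final statements -/

namespace Pool.Agent.Y230.TL

open MvPolynomial Pool.Agent.W574.SM Pool.Agent.W574.CN Pool.Agent.W574.RO Pool.Agent.Y229
open Pool.Agent.W574.MO Pool.Agent.W425.SM Pool.Agent.W425.SV Pool.Agent.W422.GC
open Pool.Agent.W425.ND Pool.Agent.W574.HS Pool.Agent.TH192.DT Pool.Agent.W574.LM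
open Pool.Agent.Y230.TH (univFam tsFam pole_of_ref)
open Pool.Agent.H628R4.TP (IsLocalBFunction)

/-- the members of a class with finitely many variables -/
def Fi (At : Fam → RatFunc ℂ → Prop) : Fam → RatFunc ℂ → Prop :=
  fun A Z => Finite A.σ ∧ At A Z

theorem fi_strong (T : AddSubmonoid ℂ) (A : Fam) (Z : RatFunc ℂ) (h : Fi StrongLocal A Z) :
    Finite A.σ ∧ (∃ j, A.f j ≠ 0) ∧
      ∀ s₀ : ℂ, Z.denom.eval s₀ = 0 → ∃ t ∈ T, FoL A (s₀ - t) := by
  obtain ⟨h0, h⟩ := h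
  obtain ⟨h1, h2⟩ := strongLocal_poles A Z h
  exact ⟨h0, h1, fun s hs => ⟨0, T.zero_mem, by rw [sub_zero]; exact h2 s hs⟩⟩

theorem fi_weak (A : Fam) (Z : RatFunc ℂ) (h : Fi WeakLocal A Z) :
    Finite A.σ ∧ (∃ j, A.f j ≠ 0) ∧
      ∀ s₀ : ℂ, Z.denom.eval s₀ = 0 → ∃ t ∈ natC, FoL A (s₀ - t) := by
  obtain ⟨h0, h⟩ := h
  obtain ⟨h1, h2⟩ := weakLocal_poles A Z h
  refine ⟨h0, h1, fun s hs => ?_⟩
  obtain ⟨i, hi⟩ := h2 s hs
  exact ⟨i, (mem_natC _).2 ⟨i, rfl⟩, hi⟩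

/-- hypersurfaces with forced roots whose zeta function has no double pole at `-1` -/
theorem cl_of_sf (hL : StL) (T : AddSubmonoid ℂ) {σ : Type} (g : MvPolynomial σ ℂ) (Z : RatFunc ℂ)
    (hfin : Finite σ) (hg : g ≠ 0)
    (h : ∀ s : ℂ, Z.denom.eval s = 0 → ∃ t ∈ T, SF (fun _ : Fin 1 => g) 0 (s - t))
    (h1 : ∀ t ∈ T, ((RatFunc.X + 1) * Z).denom.eval (t - 1) ≠ 0) :
    Cl T true ⟨σ, Fin 1, fun _ => g⟩ Z where
  fin := hfin
  ne := ⟨(0 : Fin 1), hg⟩
  pole := h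
  ref _ s hs := by
    obtain ⟨t, ht, h2⟩ := h s (pole_of_ref Z s hs)
    refine ⟨t, ht, fun j => hL.rf_of_sf g 0 _ (fun h3 => h1 t ht ?_) h2⟩
    have : t - 1 = s := by linear_combination -h3
    rw [this]
    exact hs

theorem strongHyp_sf (A : Fam) (Z : RatFunc ℂ) (h : StrongHyp A Z) : StrongLocal A Z := by
  cases h with
  | curve g hg Z hZ h1 => exact StrongLocal.basic _ _ (Basic.plane 1 _ ⟨0, hg⟩ Z hZ)
  | generic r N hr F v hv hv0 h hh a ha R hR h1 =>
    exact StrongLocal.generic r N hr F v hv hv0 h hh a ha R hR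

theorem strongHyp_cl (hL : StL) (A : Fam) (Z : RatFunc ℂ) (h : StrongHyp A Z) :
    Cl ⊥ true A Z := by
  classical
  have hs := fun s hs => (strongLocal_poles A Z (strongHyp_sf A Z h)).2 s hs
  cases h with
  | curve g hg Z hZ h1 =>
    refine cl_of_sf hL ⊥ g Z (inferInstanceAs (Finite (Fin 2))) hg
      (fun s h0 => ⟨0, AddSubmonoid.zero_mem _, by rw [sub_zero]; exact hs s h0⟩) fun t ht => ?_
    rw [AddSubmonoid.mem_bot] at ht
    rw [ht, zero_sub]
    exact h1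
  | generic r N hr F v hv hv0 h hh a ha R hR h1 =>
    obtain ⟨g', hg', h1'⟩ := Pool.Agent.W425.GN.gen_ne (show 0 < r by omega) v hv h
    have hga' : aeval a g' ≠ 0 := fun h0 => hg' (ha (by rw [h0, map_zero]))
    refine cl_of_sf hL ⊥ _ _ (inferInstanceAs (Finite (Fin N))) (h1' a hga')
      (fun s h0 => ⟨0, AddSubmonoid.zero_mem _, by rw [sub_zero]; exact hs s h0⟩) fun t ht => ?_
    rw [AddSubmonoid.mem_bot] at ht
    rw [ht, zero_sub]
    exact h1

theorem weakHyp_cl (hL : StL) (A : Fam) (Z : RatFunc ℂ) (h : WeakHyp A Z) :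
    Cl natC true A Z := by
  classical
  cases h with
  | strong _ _ h =>
    have h1 := strongHyp_cl hL A Z h
    refine ⟨h1.fin, h1.ne, fun s hs => ?_, fun h0 s hs => ?_⟩
    · obtain ⟨t, ht, h2⟩ := h1.pole s hs
      rw [AddSubmonoid.mem_bot] at ht
      subst ht
      exact ⟨0, AddSubmonoid.zero_mem _, h2⟩
    · obtain ⟨t, ht, h2⟩ := h1.ref h0 s hs
      rw [AddSubmonoid.mem_bot] at ht
      subst ht
      exact ⟨0, AddSubmonoid.zero_mem _, h2⟩
  | nondeg r N hr v a hv hv0 hnd R hR h1 =>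
    have : NeZero r := ⟨by omega⟩
    have hne : sparse v a ≠ 0 := spa_ne_zero hv a hnd
    have hw := (weakLocal_poles _ _ (WeakLocal.nondeg r N hr v a hv hv0 hnd R hR)).2
    refine cl_of_sf hL natC _ _ (inferInstanceAs (Finite (Fin N))) hne (fun s hs => ?_)
      fun t ht => ?_
    · obtain ⟨i, hi⟩ := hw s hs
      exact ⟨i, (mem_natC _).2 ⟨i, rfl⟩, hi⟩
    · obtain ⟨i, rfl⟩ := (mem_natC _).1 ht
      exact h1 i

/-- from forced roots to the local Bernstein-Sato polynomial -/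
theorem root_of_sf {σ : Type} (hfin : Finite σ) (F : MvPolynomial σ ℂ) (hF : F ≠ 0) (s : ℂ)
    (h : SF (fun _ : Fin 1 => F) 0 s) (b : Polynomial ℂ) (hb : IsLocalBFunction F b) :
    b.eval s = 0 := by
  classical
  obtain ⟨H, P, hH, hP⟩ := algebraic_of_local F hF b hb
  exact h.locEq H b (locEq_single F H b P hP) (by rw [MvPolynomial.eval_zero]; exact hH)

/-- **The strong conjecture at the origin for the hypersurfaces in the class.** -/
theorem tl_strong (hJ : StJ) (hU : StU) (hL : StL) {σ : Type} (F : MvPolynomial σ ℂ)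
    (Z : RatFunc ℂ) (h : TT (Fi StrongLocal) StrongHyp false ⟨σ, Fin 1, fun _ => F⟩ Z)
    (b : Polynomial ℂ) (hb : IsLocalBFunction F b) (s₀ : ℂ) (hs : Z.denom.eval s₀ = 0) :
    b.eval s₀ = 0 := by
  have hC := tt_closure hJ hU hL ⊥ (Fi StrongLocal) StrongHyp (fun A Z h => fi_strong ⊥ A Z h)
    (strongHyp_cl hL) false _ Z h
  obtain ⟨t, ht, h1⟩ := hC.pole s₀ hs
  rw [AddSubmonoid.mem_bot] at ht
  rw [ht, sub_zero] at h1
  obtain ⟨j, hj⟩ := hC.ne
  exact root_of_sf hC.fin F hj s₀ h1 b hb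

/-- **The weak conjecture at the origin for the hypersurfaces in the class.** -/
theorem tl_weak (hJ : StJ) (hU : StU) (hL : StL) {σ : Type} (F : MvPolynomial σ ℂ)
    (Z : RatFunc ℂ) (h : TT (Fi WeakLocal) WeakHyp false ⟨σ, Fin 1, fun _ => F⟩ Z)
    (b : Polynomial ℂ) (hb : IsLocalBFunction F b) (s₀ : ℂ) (hs : Z.denom.eval s₀ = 0) :
    ∃ i : ℕ, b.eval (s₀ - i) = 0 := by
  have hC := tt_closure hJ hU hL natC (Fi WeakLocal) WeakHyp fi_weak
    (weakHyp_cl hL) false _ Z h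
  obtain ⟨t, ht, h1⟩ := hC.pole s₀ hs
  obtain ⟨i, rfl⟩ := (mem_natC _).1 ht
  obtain ⟨j, hj⟩ := hC.ne
  exact ⟨i, root_of_sf hC.fin F hj _ h1 b hb⟩

section

variable {σ T : Type} [Fintype T] [DecidableEq T] {κ : T → Type} [∀ t, Fintype (κ t)]

/-- **Products of powers of forms at the origin: the strong conjecture.** -/
theorem tl_strong_pow (hJ : StJ) (hU : StU) (hL : StL) [Finite σ] (a : T → ℕ) (ha : ∀ t, 1 ≤ a t)
    [Nonempty T] (f : (t : T) → κ t → MvPolynomial σ ℂ) (Z' : RatFunc ℂ)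
    (h : TT (Fi StrongLocal) StrongHyp false (powFam a f) Z')
    (b : Polynomial ℂ) (hb : IsLocalBFunction (powProd a f) b)
    (s₀ : ℂ) (hs : (Z' * ∏ t, fac (a t) 1).denom.eval s₀ = 0) : b.eval s₀ = 0 := by
  classical
  have : Fintype σ := Fintype.ofFinite σ
  have hC := tt_closure hJ hU hL ⊥ (Fi StrongLocal) StrongHyp (fun A Z h => fi_strong ⊥ A Z h)
    (strongHyp_cl hL) false _ Z' h
  have hf := powFam_ne a ha f hC.ne
  have hP := powData_local a f hf b hb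
  rcases prod_fac_pole a ha Z' s₀ hs with h2 | ⟨t, rfl⟩
  · obtain ⟨u, hu, h3⟩ := hC.pole s₀ h2
    rw [AddSubmonoid.mem_bot] at hu
    rw [hu, sub_zero] at h3
    obtain ⟨t0⟩ := (inferInstance : Nonempty T)
    obtain ⟨H, hH, hloc⟩ := hP.ideal ⟨t0, by have := ha t0; omega⟩
    exact SF.locEq h3 H b hloc (by rw [MvPolynomial.eval_zero]; exact hH)
  · exact hP.strict t 0 (by have := ha t; omega)

/-- **Products of powers of forms at the origin: the weak conjecture.** -/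
theorem tl_weak_pow (hJ : StJ) (hU : StU) (hL : StL) [Finite σ] (a : T → ℕ) (ha : ∀ t, 1 ≤ a t)
    [Nonempty T] (f : (t : T) → κ t → MvPolynomial σ ℂ) (Z' : RatFunc ℂ)
    (h : TT (Fi WeakLocal) WeakHyp false (powFam a f) Z')
    (b : Polynomial ℂ) (hb : IsLocalBFunction (powProd a f) b)
    (s₀ : ℂ) (hs : (Z' * ∏ t, fac (a t) 1).denom.eval s₀ = 0) :
    ∃ i : ℕ, b.eval (s₀ - i) = 0 := by
  classical
  have : Fintype σ := Fintype.ofFinite σ
  have hC := tt_closure hJ hU hL natC (Fi WeakLocal) WeakHyp fi_weak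
    (weakHyp_cl hL) false _ Z' h
  have hf := powFam_ne a ha f hC.ne
  have hP := powData_local a f hf b hb
  rcases prod_fac_pole a ha Z' s₀ hs with h2 | ⟨t, rfl⟩
  · obtain ⟨u, hu, h3⟩ := hC.pole s₀ h2
    obtain ⟨i, rfl⟩ := (mem_natC _).1 hu
    obtain ⟨t0⟩ := (inferInstance : Nonempty T)
    obtain ⟨H, hH, hloc⟩ := hP.ideal ⟨t0, by have := ha t0; omega⟩
    exact ⟨i, SF.locEq h3 H b hloc (by rw [MvPolynomial.eval_zero]; exact hH)⟩
  · refine ⟨0, ?_⟩
    have h2 := hP.strict t 0 (by have := ha t; omega)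
    simpa using h2

end

end Pool.Agent.Y230.TL
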