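import Pool.Agent.Y230.TH.Stm
import Pool.Agent.Y229.SP4

set_option autoImplicit false

/-! # Statements for the Thom-Sebastiani sums `∑ y_j f_j(x) + g(z)` at a point -/

namespace Pool.Agent.Y230.TL

open MvPolynomial
open Pool.Agent.W574.SM Pool.Agent.W574.HS Pool.Agent.W574.RO Pool.Agent.Y229
open Pool.Agent.Y230.TH (kf kd W)

/-- the part of degree `0` in `y` -/
noncomputable def h0 {ι ρ : Type} : MvPolynomial (ι ⊕ ρ) ℂ →ₐ[ℂ] MvPolynomial ρ ℂ :=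
  aeval (Sum.elim (fun _ => 0) X)

/-- `(k + 1) B(x, k) g ^ k = P(k) g ^ (k + 1)` for all `k` -/
def RE {τ : Type} (g : MvPolynomial τ ℂ) (B : Polynomial (MvPolynomial τ ℂ))
    (P : ℕ →₀ weyl τ) : Prop :=
  ∀ k : ℕ, ((k : ℂ) + 1) • (B.eval (k : MvPolynomial τ ℂ) * g ^ k) =
    P.sum fun m Q => ((k : ℂ) ^ m) • (Q : Module.End ℂ (MvPolynomial τ ℂ)) (g ^ (k + 1))

/-- `B(p, β) = 0` for all the polynomials `B` in such equations -/
def RF {τ : Type} (g : MvPolynomial τ ℂ) (p : τ → ℂ) (β : ℂ) : Prop :=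
  ∀ (B : Polynomial (MvPolynomial τ ℂ)) (P : ℕ →₀ weyl τ), RE g B P →
    eval p (B.eval (C β)) = 0

/-- A microlocal functional equation gives a functional equation. -/
def StA : Prop := ∀ {τ : Type} (g : MvPolynomial τ ℂ), g ≠ 0 →
  ∀ B : Polynomial (MvPolynomial τ ℂ),
    (fun k : ℕ => B.eval (k : MvPolynomial τ ℂ) * g ^ k) ∈ W g → ∃ P, RE g B P

/-- The expansion of a functional equation of `∑ y_j f_j(x) + g(x)` in powers of `y`. -/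
def StB : Prop := ∀ {ρ ι : Type} [Fintype ι] [DecidableEq ι] [DecidableEq ρ]
  (f : ι → MvPolynomial ρ ℂ) (g : MvPolynomial ρ ℂ)
  (B : Polynomial (MvPolynomial (ι ⊕ ρ) ℂ)) (P : ℕ →₀ weyl (ι ⊕ ρ)),
  RE (univ f + rename Sum.inr g) B P →
  ∃ (κ : Type) (_ : Fintype κ) (c : κ → ι → ℤ) (d : κ → ℤ) (q : κ → MvPolynomial ι ℂ)
    (m : κ → ℕ) (R : κ → weyl ρ), (∀ i, 1 ≤ d i → 1 ≤ ∑ j, c i j) ∧
    ∀ (s : ι →₀ ℕ) (k : ℕ),
      h0 (B.eval ((∑ j, s j + k : ℕ) : MvPolynomial (ι ⊕ ρ) ℂ)) *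
          ((∏ j, f j ^ s j) * g ^ k) =
        ∑ i, (((∑ j, s j + k : ℕ) : ℂ) ^ m i * (evN s (q i) * (fall (c i) s : ℂ)) *
            kd k (d i)) •
          (R i : Module.End ℂ (MvPolynomial ρ ℂ))
            ((∏ j, f j ^ (sh s (c i)) j) * g ^ ((k : ℤ) + 1 - d i).toNat)

/-- The reduced forced roots of a Thom-Sebastiani sum at a point. -/
def StJ : Prop := ∀ {σ τ ι : Type} [Fintype ι] [DecidableEq ι] [DecidableEq σ] [DecidableEq τ]
  (f : ι → MvPolynomial σ ℂ) (g : MvPolynomial τ ℂ), g ≠ 0 →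
  ∀ (p : σ → ℂ) (q : τ → ℂ) (α β : ℂ), SF f p α → RF g q β →
    RF (univ (fun j => rename Sum.inl (f j)) + rename Sum.inr (rename Sum.inr g) :
      MvPolynomial (ι ⊕ (σ ⊕ τ)) ℂ) (Sum.elim (fun _ => 0) (Sum.elim p q)) (α + β)

/-- The reduced forced roots of `∑ y_j f_j(x)` at a point. -/
def StU : Prop := ∀ {σ ι : Type} [Fintype ι] [DecidableEq ι] [DecidableEq σ]
  (f : ι → MvPolynomial σ ℂ) (p : σ → ℂ) (α : ℂ), SF f p α →
    RF (univ f : MvPolynomial (ι ⊕ σ) ℂ) (Sum.elim (fun _ => 0) p) α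

/-- Reduced forced roots and forced roots, renaming, superfluous variables. -/
structure StL : Prop where
  rf_of_sf : ∀ {τ : Type} (g : MvPolynomial τ ℂ) (p : τ → ℂ) (β : ℂ), β ≠ -1 →
    SF (fun _ : Fin 1 => g) p β → RF g p β
  sf_of_rf : ∀ {τ : Type} (g : MvPolynomial τ ℂ) (p : τ → ℂ) (β : ℂ),
    RF g p β → SF (fun _ : Fin 1 => g) p β
  equiv : ∀ {σ τ : Type} (e : σ ≃ τ) (g : MvPolynomial σ ℂ) (p : τ → ℂ) (β : ℂ),
    RF g (p ∘ e) β → RF (rename e g) p β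
  drop : ∀ {σ κ : Type} (g : MvPolynomial σ ℂ) (p : σ → ℂ) (q : κ → ℂ) (β : ℂ),
    RF (rename Sum.inl g : MvPolynomial (σ ⊕ κ) ℂ) (Sum.elim p q) β → RF g p β

end Pool.Agent.Y230.TL
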