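import Pool.Agent.Y230.TL.Defs
import Pool.Agent.Y230.TL.Stm
import Pool.Agent.Y230.TH.Top

set_option autoImplicit false
set_option linter.unusedSectionVars false
set_option linter.unusedVariables false

/-! # Local topological zeta functions of Thom-Sebastiani sums: the induction -/

namespace Pool.Agent.Y230.TL

open Polynomial Pool.Agent.W574.SM Pool.Agent.W574.CN Pool.Agent.W574.RO Pool.Agent.Y229
open Pool.Agent.W574.MO Pool.Agent.W425.SM Pool.Agent.W425.SV Pool.Agent.W422.GC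
open Pool.Agent.W425.ND Pool.Agent.W574.HS Pool.Agent.W574.LM
open Pool.Agent.Y230.TH (univFam tsFam X1_reg X1_ne X1_inv pole_of_ref ref_of_pole tsFam_ne
  univFam_ne)

/-- a functional equation with a polynomial unit as one of a principal ideal -/
theorem locEq_single {σ : Type} (F H : MvPolynomial σ ℂ) (b : ℂ[X])
    (P : ℕ →₀ Pool.Agent.H628R4.TP.weylS σ)
    (hP : ∀ s : ℕ, H * (MvPolynomial.C (b.eval (s : ℂ)) * F ^ s) =
      P.sum fun m Q => ((s : ℂ) ^ m) • (Q : Module.End ℂ (MvPolynomial σ ℂ)) (F ^ (s + 1))) :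
    IsLocEq H (fun _ : Fin 1 => F) b := by
  classical
  refine ⟨{fun _ => 1}, fun _ => ∑ m ∈ P.support, Finsupp.single (Finsupp.single 0 m)
    ⟨(P m).1, (P m).2⟩, fun c hc => ?_, fun s => ?_⟩
  · rw [Finset.mem_singleton.1 hc]
    simp
  · rw [Finset.sum_singleton, Fin.sum_univ_one, Fin.prod_univ_one, Fin.prod_univ_one,
      Fin.prod_univ_one, hP (s 0), applyAt, ← Finsupp.sum_finsetSum_index]
    · refine Finset.sum_congr rfl fun m _ => ?_
      rw [Finsupp.sum_single_index (by rw [ZeroMemClass.coe_zero, LinearMap.zero_apply, smul_zero])]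
      rw [Fin.prod_univ_one, Finsupp.single_eq_same, if_neg (by norm_num), Nat.cast_one, map_one,
        one_mul]
      have e : ((s 0 : ℤ) + 1).toNat = s 0 + 1 := by omega
      rw [e]
    · intro a
      rw [ZeroMemClass.coe_zero, LinearMap.zero_apply, smul_zero]
    · intro a A B
      rw [← smul_add]
      rfl

/-- the root `-1` -/
theorem sf_minus_one {σ : Type} [Finite σ] (F : MvPolynomial σ ℂ) (hF : F ≠ 0)
    (h0 : MvPolynomial.constantCoeff F = 0) : SF (fun _ : Fin 1 => F) 0 (-1) := by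
  classical
  refine sf_of_local _ 0 (-1) (fun H b hb hH => ?_) (exists_fe _ ⟨0, hF⟩)
  obtain ⟨L, m, Q, hQ⟩ := single_eq F H b hb
  refine minus_one F H hF (fun hd => hH ?_) b (∑ i, Finsupp.single (m i) ⟨(Q i).1, (Q i).2⟩)
    fun s => ?_
  · obtain ⟨c, rfl⟩ := hd
    rw [MvPolynomial.eval_zero, map_mul, h0, zero_mul]
  · rw [hQ s, ← Finsupp.sum_finset_sum_index]
    · refine Finset.sum_congr rfl fun i _ => ?_
      rw [Finsupp.sum_single_index]
      exact smul_zero _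
    · intro a
      exact smul_zero _
    · intro a A B
      rw [← smul_add]
      rfl

/-- a polynomial with a forced root vanishes -/
theorem zero_of_sf {σ : Type} (F : MvPolynomial σ ℂ) (s : ℂ)
    (h : SF (fun _ : Fin 1 => F) 0 s) : MvPolynomial.constantCoeff F = 0 := by
  classical
  have h1 : IsLocEq F (fun _ : Fin 1 => F) 1 := by
    refine locEq_single F F 1 (Finsupp.single 0 1) fun k => ?_
    rw [Finsupp.sum_single_index (by simp)]
    simp only [Polynomial.eval_one, map_one, one_mul, pow_zero, one_smul]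
    change F * F ^ k = F ^ (k + 1)
    rw [pow_succ']
  by_contra hne
  have h2 := h.locEq F 1 h1 (by rw [MvPolynomial.eval_zero]; exact hne)
  rw [Polynomial.eval_one] at h2
  exact one_ne_zero h2

/-- the properties of the members of the classes -/
structure Cl (T : AddSubmonoid ℂ) (c : Bool) (A : Fam) (Z : RatFunc ℂ) : Prop where
  fin : Finite A.σ
  ne : ∃ j, A.f j ≠ 0
  pole : ∀ s : ℂ, Z.denom.eval s = 0 → ∃ t ∈ T, SF A.f 0 (s - t)
  ref : c = true → ∀ s : ℂ, ((RatFunc.X + 1) * Z).denom.eval s = 0 →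
    ∃ t ∈ T, ∀ j, RF (A.f j) 0 (s - t)

theorem sf_univFam (hU : StU) (A : Fam) (s : ℂ) (h : SF A.f 0 s) :
    RF ((univFam A).f 0) 0 s := by
  classical
  have h1 := hU A.f 0 s h
  have e : (Sum.elim (fun _ => 0) 0 : A.ι ⊕ A.σ → ℂ) = 0 := by
    funext x
    rcases x with x | x <;> rfl
  rw [e] at h1
  exact h1

theorem rf_tsFam (hJ : StJ) (hL : StL) (A : Fam) (τ : Type) (g : MvPolynomial τ ℂ) (hg : g ≠ 0)
    (α β : ℂ) (hα : SF A.f 0 α) (hβ : RF g 0 β) : RF ((tsFam A τ g).f 0) 0 (α + β) := by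
  classical
  have h1 := hJ A.f g hg 0 0 α β hα hβ
  have e : (Sum.elim (fun _ => 0) (Sum.elim 0 0) : A.ι ⊕ (A.σ ⊕ τ) → ℂ) =
      (0 : (A.ι ⊕ A.σ) ⊕ τ → ℂ) ∘ (Equiv.sumAssoc A.ι A.σ τ).symm := by
    funext x
    rcases x with x | x | x <;> rfl
  rw [e] at h1
  have h2 := hL.equiv (Equiv.sumAssoc A.ι A.σ τ).symm _ 0 (α + β) h1
  have e2 : MvPolynomial.rename (Equiv.sumAssoc A.ι A.σ τ).symm
      (univ (fun j => MvPolynomial.rename Sum.inl (A.f j)) +
        MvPolynomial.rename Sum.inr (MvPolynomial.rename Sum.inr g) :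
          MvPolynomial (A.ι ⊕ (A.σ ⊕ τ)) ℂ) = (tsFam A τ g).f 0 := by
    change _ = MvPolynomial.rename Sum.inl
      (∑ j, MvPolynomial.X (Sum.inl j) * MvPolynomial.rename Sum.inr (A.f j) :
        MvPolynomial (A.ι ⊕ A.σ) ℂ) + MvPolynomial.rename Sum.inr g
    rw [map_add, MvPolynomial.rename_rename, MvPolynomial.rename_rename]
    congr 1
    rw [univ, map_sum, map_sum]
    refine Finset.sum_congr rfl fun i _ => ?_
    rw [map_mul, map_mul, MvPolynomial.rename_X,
      MvPolynomial.rename_X, MvPolynomial.rename_rename,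
      MvPolynomial.rename_rename, MvPolynomial.rename_rename]
    rfl
  rw [e2] at h2
  exact h2

theorem rf_equiv (hL : StL) {σ τ : Type} (e : σ ≃ τ) (g : MvPolynomial σ ℂ) (s : ℂ)
    (h : RF g 0 s) : RF (MvPolynomial.rename e g) 0 s :=
  hL.equiv e g 0 s h

theorem rf_drop (hL : StL) {σ κ : Type} (g : MvPolynomial σ ℂ) (s : ℂ)
    (h : RF (MvPolynomial.rename Sum.inl g : MvPolynomial (σ ⊕ κ) ℂ) 0 s) : RF g 0 s := by
  refine hL.drop (κ := κ) g 0 0 s ?_
  rw [elim_zero]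
  exact h

/-- **The induction.** -/
theorem tt_closure (hJ : StJ) (hU : StU) (hL : StL) (T : AddSubmonoid ℂ)
    (At HAt : Fam → RatFunc ℂ → Prop)
    (hAt : ∀ A Z, At A Z → Finite A.σ ∧ (∃ j, A.f j ≠ 0) ∧
      ∀ s₀ : ℂ, Z.denom.eval s₀ = 0 → ∃ t ∈ T, FoL A (s₀ - t))
    (hHAt : ∀ A Z, HAt A Z → Cl T true A Z)
    (c : Bool) (A : Fam) (Z : RatFunc ℂ) (h : TT At HAt c A Z) : Cl T c A Z := by
  induction h with
  | atom A Z h =>
    obtain ⟨h1, h2, h3⟩ := hAt A Z h
    exact ⟨h1, h2, h3, fun h0 => absurd h0 (by simp)⟩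
  | hatom A Z h => exact hHAt A Z h
  | hyp A Z h ih => exact ⟨ih.fin, ih.ne, ih.pole, fun h0 => absurd h0 (by simp)⟩
  | sum A B Z W v w hv hw hv0 hw0 hA hB ihA ihB =>
    have := ihA.fin
    have := ihB.fin
    refine ⟨inferInstanceAs (Finite (A.σ ⊕ B.σ)), ?_, fun s hs => ?_,
      fun h0 => absurd h0 (by simp)⟩
    · obtain ⟨j, hj⟩ := ihA.ne
      refine ⟨Sum.inl j, ?_⟩
      change MvPolynomial.rename Sum.inl (A.f j) ≠ 0
      rw [Ne, map_eq_zero_iff _ (MvPolynomial.rename_injective _ Sum.inl_injective)]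
      exact hj
    · obtain ⟨p, hp, q, hq, rfl⟩ := lap2_pole v w s hs
      obtain ⟨t, ht, h1⟩ := ihA.pole _ (pole_of_exp Z v hv hv0 p hp)
      obtain ⟨t', ht', h2⟩ := ihB.pole _ (pole_of_exp W w hw hw0 q hq)
      refine ⟨t + t', T.add_mem ht ht', ?_⟩
      have h3 : FoL (A.sum B) ((-p.1 - t) + (-q.1 - t')) := isForcing_local.sum A B _ _ h1 h2
      have h4 : -p.1 + -q.1 - (t + t') = (-p.1 - t) + (-q.1 - t') := by ring
      rw [h4]
      exact h3
  | mul A B Z W hA hB ihA ihB =>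
    have hfA := ihA.fin
    have hfB := ihB.fin
    have hneA := ihA.ne
    have hneB := ihB.ne
    refine ⟨inferInstanceAs (Finite (A.σ ⊕ B.σ)), ?_, fun s hs => ?_,
      fun h0 => absurd h0 (by simp)⟩
    · obtain ⟨j, hj⟩ := hneA
      obtain ⟨k, hk⟩ := hneB
      refine ⟨(j, k), ?_⟩
      change (MvPolynomial.rename Sum.inl (A.f j) * MvPolynomial.rename Sum.inr (B.f k) :
        MvPolynomial (A.σ ⊕ B.σ) ℂ) ≠ 0
      refine mul_ne_zero ?_ ?_
      · rw [Ne, map_eq_zero_iff _ (MvPolynomial.rename_injective _ Sum.inl_injective)]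
        exact hj
      · rw [Ne, map_eq_zero_iff _ (MvPolynomial.rename_injective _ Sum.inr_injective)]
        exact hk
    · by_cases h1 : Z.denom.eval s = 0
      · obtain ⟨t, ht, h2⟩ := ihA.pole s h1
        exact ⟨t, ht, isForcing_local.mulL A B _ h2 hneB⟩
      · by_cases h2 : W.denom.eval s = 0
        · obtain ⟨t, ht, h3⟩ := ihB.pole s h2
          exact ⟨t, ht, isForcing_local.mulR A B _ h3 hneA⟩
        · exact absurd hs (Reg_denom s _ ((Reg s).mul_mem (mem_Reg_of_denom _ _ h1)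
            (mem_Reg_of_denom _ _ h2)))
  | univ A Z hA ihA =>
    have hfA := ihA.fin
    have hneA := ihA.ne
    have hfin : Finite (A.ι ⊕ A.σ) := inferInstance
    have hz : MvPolynomial.constantCoeff (∑ j, MvPolynomial.X (Sum.inl j) *
        MvPolynomial.rename Sum.inr (A.f j) : MvPolynomial (A.ι ⊕ A.σ) ℂ) = 0 := by
      rw [map_sum]
      refine Finset.sum_eq_zero fun j _ => ?_
      rw [map_mul, MvPolynomial.constantCoeff_X, zero_mul]
    have h1 : SF (univFam A).f 0 (-1) := sf_minus_one _ (univFam_ne A hneA) hz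
    refine ⟨hfin, ⟨0, univFam_ne A hneA⟩, fun s hs => ?_, fun _ s hs => ?_⟩
    · rcases pole_form Z s hs with h2 | rfl
      · obtain ⟨t, ht, h3⟩ := ihA.pole s h2
        exact ⟨t, ht, hL.sf_of_rf _ 0 _ (sf_univFam hU A _ h3)⟩
      · exact ⟨0, T.zero_mem, by rw [sub_zero]; exact h1⟩
    · have e : (RatFunc.X + 1) * (Z * (RatFunc.X + 1)⁻¹) = Z := by
        have := X1_ne
        field_simp
      rw [e] at hs
      obtain ⟨t, ht, h3⟩ := ihA.pole s hs
      exact ⟨t, ht, fun j => sf_univFam hU A _ h3⟩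
  | ts A τ g Z W v w hv hw hv0 hw0 h0 hA hg ihA ihg =>
    have hfA := ihA.fin
    have hfg : Finite τ := ihg.fin
    have hneA := ihA.ne
    have hg0 : g ≠ 0 := by
      obtain ⟨j, hj⟩ := ihg.ne
      exact hj
    have hfin : Finite ((A.ι ⊕ A.σ) ⊕ τ) := inferInstance
    have hz : MvPolynomial.constantCoeff (MvPolynomial.rename Sum.inl
        (∑ j, MvPolynomial.X (Sum.inl j) * MvPolynomial.rename Sum.inr (A.f j) :
          MvPolynomial (A.ι ⊕ A.σ) ℂ) + MvPolynomial.rename Sum.inr g :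
            MvPolynomial ((A.ι ⊕ A.σ) ⊕ τ) ℂ) = 0 := by
      rw [map_add, MvPolynomial.constantCoeff_rename, MvPolynomial.constantCoeff_rename, h0,
        add_zero, map_sum]
      refine Finset.sum_eq_zero fun j _ => ?_
      rw [map_mul, MvPolynomial.constantCoeff_X, zero_mul]
    have h1 : SF (tsFam A τ g).f 0 (-1) := sf_minus_one _ (tsFam_ne A τ g hg0) hz
    have href : ∀ s : ℂ, (1 - RatFunc.X * lap2 v w).denom.eval s = 0 →
        ∃ t ∈ T, RF ((tsFam A τ g).f 0) 0 (s - t) := by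
      intro s hs
      obtain ⟨p, hp, q, hq, rfl⟩ := lap2_pole v w s hs
      obtain ⟨t, ht, h3⟩ := ihA.pole _ (pole_of_exp Z v hv hv0 p hp)
      obtain ⟨t', ht', h5⟩ := ihg.ref rfl _ (pole_of_exp _ w hw hw0 q hq)
      refine ⟨t + t', T.add_mem ht ht', ?_⟩
      have h6 : -p.1 + -q.1 - (t + t') = (-p.1 - t) + (-q.1 - t') := by ring
      rw [h6]
      exact rf_tsFam hJ hL A τ g hg0 _ _ h3 (h5 0)
    refine ⟨hfin, ⟨0, tsFam_ne A τ g hg0⟩, fun s hs => ?_, fun _ s hs => ?_⟩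
    · rcases pole_form _ s hs with h2 | rfl
      · obtain ⟨t, ht, h3⟩ := href s h2
        exact ⟨t, ht, hL.sf_of_rf _ 0 _ h3⟩
      · exact ⟨0, T.zero_mem, by rw [sub_zero]; exact h1⟩
    · have e : (RatFunc.X + 1) * ((1 - RatFunc.X * lap2 v w) * (RatFunc.X + 1)⁻¹) =
          1 - RatFunc.X * lap2 v w := by
        rw [mul_comm, mul_assoc, inv_mul_cancel₀ X1_ne, mul_one]
      rw [e] at hs
      obtain ⟨t, ht, h3⟩ := href s hs
      exact ⟨t, ht, fun j => h3⟩
  | drop σ κ g Z h ih =>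
    have hf : Finite (σ ⊕ κ) := ih.fin
    have hf' : Finite σ := Finite.of_injective (Sum.inl : σ → σ ⊕ κ) Sum.inl_injective
    have hg0 : g ≠ 0 := by
      rintro rfl
      obtain ⟨j, hj⟩ := ih.ne
      exact hj (map_zero _)
    refine ⟨hf', ⟨(0 : Fin 1), hg0⟩, fun s hs => ?_, fun h0 s hs => ?_⟩
    · obtain ⟨t, ht, h1⟩ := ih.pole s hs
      refine ⟨t, ht, ?_⟩
      by_cases h2 : s - t = -1
      · rw [h2]
        refine sf_minus_one g hg0 ?_
        have h3 : MvPolynomial.constantCoeff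
            (MvPolynomial.rename Sum.inl g : MvPolynomial (σ ⊕ κ) ℂ) = 0 := zero_of_sf _ _ h1
        rwa [MvPolynomial.constantCoeff_rename] at h3
      · exact hL.sf_of_rf g 0 _ (rf_drop hL (κ := κ) g _ (hL.rf_of_sf _ 0 _ h2 h1))
    · obtain ⟨t, ht, h1⟩ := ih.ref h0 s hs
      exact ⟨t, ht, fun j => rf_drop hL (κ := κ) g _ (h1 0)⟩
  | equiv c A B i k h Z hA ihA =>
    have hf := ihA.fin
    refine ⟨Finite.of_equiv A.σ i, ?_, fun s hs => ?_, fun h0 s hs => ?_⟩
    · obtain ⟨j, hj⟩ := ihA.ne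
      refine ⟨k j, ?_⟩
      rw [h, Ne, map_eq_zero_iff _ (MvPolynomial.rename_injective _ i.injective)]
      exact hj
    · obtain ⟨t, ht, h1⟩ := ihA.pole s hs
      exact ⟨t, ht, isForcing_local.equiv A B i k h _ h1⟩
    · obtain ⟨t, ht, h1⟩ := ihA.ref h0 s hs
      refine ⟨t, ht, fun j => ?_⟩
      obtain ⟨j', rfl⟩ := k.surjective j
      rw [h]
      exact rf_equiv hL i _ _ (h1 j')

end Pool.Agent.Y230.TL
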